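import Pool.Agent.helper34.AC.Spec3

set_option autoImplicit false

open Filter Topology

namespace Pool.Agent.helper34.AC

theorem GAP_conv {g P : ℝ} (hP : 0 < P) (hg : 0 < g) :
    (g - P) * (1 + Real.log P) ≤ g * Real.log g - P * Real.log P := by
  have h1 : 1 - (g / P)⁻¹ ≤ Real.log (g / P) := Real.one_sub_inv_le_log_of_pos (by positivity)
  rw [Real.log_div hg.ne' hP.ne', inv_div] at h1
  have h2 : g * (1 - P / g) ≤ g * (Real.log g - Real.log P) := mul_le_mul_of_nonneg_left h1 hg.le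
  have h3 : g * (1 - P / g) = g - P := by field_simp
  rw [h3] at h2
  linarith

theorem GAP (hWEX : WEX_stmt) (_hTAN : TAN_stmt) (hGPS : GPS_stmt) (hBLO : BLO_stmt)
    (hBUP : BUP_stmt) (hBRC : BRC_stmt) (hAN3 : AN3_stmt) : GAP_stmt := by
  obtain ⟨w1, w2, w3, w4, w5⟩ := hWEX
  obtain ⟨b1, b2, b3, b4, b5, b6, b7⟩ := hBRC
  have hW0 : ∀ n : ℕ, 0 ≤ W n := fun n => (w1 n (Nat.cast_nonneg n)).1
  have hPW : ∀ n : ℕ, psi n * W n = n := fun n => by
    have := (w1 n (Nat.cast_nonneg n)).2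
    rw [psi, mul_comm]; exact this
  have hP0 : ∀ n : ℕ, 0 < psi n := fun n => Real.exp_pos _
  have hg0 : ∀ n : ℕ, 0 < gb n := fun n => lt_of_lt_of_le one_pos (hBLO n).1
  have hlogP : ∀ n : ℕ, Real.log (psi n) = W n := fun n => by rw [psi, Real.log_exp]
  have key : ∀ (n : ℕ) (a : ℝ), gb n * Real.log (gb n) ≤ n + a →
      (gb n - psi n) * (1 + W n) ≤ a := by
    intro n a h
    have h1 := GAP_conv (hP0 n) (hg0 n)
    rw [hlogP, hPW] at h1
    linarith
  have hup : ∀ n : ℕ, gb n * Real.log (gb n) ≤ n + 1 := by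
    intro n
    have h1 := (hBUP n 0 le_rfl).2
    rw [b3, b3, sub_zero] at h1
    exact h1
  refine ⟨fun n => ⟨?_, ?_⟩, ?_, ?_⟩
  · have h1 := key n 1 (hup n)
    have h2 := hGPS n
    have h3 := hW0 n
    nlinarith
  · rw [om, div_le_iff₀ (hg0 n)]
    have h1 := hPW n
    have h2 := mul_le_mul_of_nonneg_right (hGPS n) (hW0 n)
    linarith
  · obtain ⟨M, hM⟩ := hAN3
    refine ⟨M, fun n hn => ?_⟩
    have h1 := key n (3 / 4) (hM n hn)
    have h2 : 0 < 1 + W n := by linarith [hW0 n]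
    have h3 : gb n - psi n ≤ 3 / 4 / (1 + W n) := by
      rw [le_div_iff₀ h2]; exact h1
    linarith
  · intro x s hx hs
    obtain ⟨hw, hwx⟩ := w1 x hx
    have h1 : Real.exp s * x ≤ (W x + s) * Real.exp (W x + s) := by
      rw [Real.exp_add]
      have e1 : Real.exp s * x = W x * (Real.exp (W x) * Real.exp s) := by
        rw [← hwx]
        have : W (W x * Real.exp (W x)) = W x := w2 _ hw
        rw [this]
        ring
      rw [e1]
      exact mul_le_mul_of_nonneg_right (by linarith) (by positivity)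
    have h2 := w3 _ _ (by positivity) h1
    rwa [w2 _ (by linarith)] at h2

end Pool.Agent.helper34.AC
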