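import Pool.Agent.helper34.AC.Spec3

set_option autoImplicit false

open Filter Topology

namespace Pool.Agent.helper34.AC

open Polynomial

theorem RLE_ne_zero {p : Polynomial ℝ} (hp : p ≠ 0) : p + Polynomial.derivative p ≠ 0 := by
  intro h
  have h1 : Polynomial.degree (Polynomial.derivative p) < Polynomial.degree p :=
    Polynomial.degree_derivative_lt hp
  have h2 : Polynomial.degree (p + Polynomial.derivative p) = Polynomial.degree p :=
    Polynomial.degree_add_eq_left_of_degree_lt h1
  rw [h, Polynomial.degree_zero] at h2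
  exact hp (Polynomial.degree_eq_bot.1 h2.symm)

theorem RLE_toFinset (p : Polynomial ℝ) (hp : p ≠ 0) :
    p.roots.toFinset.card ≤
      ((p + Polynomial.derivative p).roots.toFinset \ p.roots.toFinset).card + 1 := by
  have hq := RLE_ne_zero hp
  refine Finset.card_le_sdiff_of_interleaved fun x hx y hy hxy hxy' => ?_
  rw [Multiset.mem_toFinset, mem_roots hp] at hx hy
  have hder : ∀ z : ℝ, HasDerivAt (fun t : ℝ => Real.exp t * p.eval t)
      (Real.exp z * p.eval z + Real.exp z * (Polynomial.derivative p).eval z) z := fun z =>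
    (Real.hasDerivAt_exp z).mul (p.hasDerivAt z)
  have hxe : p.eval x = 0 := hx
  have hye : p.eval y = 0 := hy
  obtain ⟨z, hz1, hz2⟩ := exists_hasDerivAt_eq_zero (f := fun t : ℝ => Real.exp t * p.eval t)
    (f' := fun z => Real.exp z * p.eval z + Real.exp z * (Polynomial.derivative p).eval z) hxy
    (fun z _ => (hder z).continuousAt.continuousWithinAt) (by simp [hxe, hye]) (fun z _ => hder z)
  refine ⟨z, ?_, hz1⟩
  rw [Multiset.mem_toFinset, mem_roots hq, IsRoot, eval_add]
  have h3 : Real.exp z * (p.eval z + (Polynomial.derivative p).eval z) = 0 := by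
    rw [mul_add]; exact hz2
  exact (mul_eq_zero.1 h3).resolve_left (Real.exp_pos z).ne'

theorem RLE_mult (p : Polynomial ℝ) (hp : p ≠ 0) (x : ℝ) :
    p.rootMultiplicity x - 1 ≤ (p + Polynomial.derivative p).rootMultiplicity x := by
  rw [le_rootMultiplicity_iff (RLE_ne_zero hp)]
  refine dvd_add ?_ ?_
  · exact (pow_dvd_pow _ (Nat.sub_le _ _)).trans (pow_rootMultiplicity_dvd p x)
  · exact (pow_dvd_pow _ (rootMultiplicity_sub_one_le_derivative_rootMultiplicity _ _)).trans
      (pow_rootMultiplicity_dvd _ x)

theorem RLE : RLE_stmt := by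
  intro p
  classical
  rcases eq_or_ne p 0 with rfl | hp
  · simp
  set q := p + Polynomial.derivative p with hq
  calc
    Multiset.card p.roots = ∑ x ∈ p.roots.toFinset, p.roots.count x :=
      (Multiset.toFinset_sum_count_eq _).symm
    _ = ∑ x ∈ p.roots.toFinset, (p.roots.count x - 1 + 1) :=
      (Eq.symm <| Finset.sum_congr rfl fun _ hx => tsub_add_cancel_of_le <|
        Nat.succ_le_iff.2 <| Multiset.count_pos.2 <| Multiset.mem_toFinset.1 hx)
    _ = (∑ x ∈ p.roots.toFinset, (p.rootMultiplicity x - 1)) + p.roots.toFinset.card := by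
      simp only [Finset.sum_add_distrib, Finset.card_eq_sum_ones, count_roots]
    _ ≤ (∑ x ∈ p.roots.toFinset, q.rootMultiplicity x) +
          ((q.roots.toFinset \ p.roots.toFinset).card + 1) :=
      (add_le_add
        (Finset.sum_le_sum fun x _ => RLE_mult p hp x)
        (RLE_toFinset p hp))
    _ ≤ (∑ x ∈ p.roots.toFinset, q.roots.count x) +
          ((∑ x ∈ q.roots.toFinset \ p.roots.toFinset,
            q.roots.count x) + 1) := by
      simp only [← count_roots, Finset.card_eq_sum_ones]
      gcongr with x hx
      rw [Nat.succ_le_iff, Multiset.count_pos, ← Multiset.mem_toFinset]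
      exact (Finset.mem_sdiff.1 hx).1
    _ = Multiset.card q.roots + 1 := by
      rw [← add_assoc, ← Finset.sum_union Finset.disjoint_sdiff, Finset.union_sdiff_self_eq_union, ←
        Multiset.toFinset_sum_count_eq, ← Finset.sum_subset Finset.subset_union_right]
      intro x _ hx₂
      simpa only [Multiset.mem_toFinset, Multiset.count_eq_zero] using hx₂

end Pool.Agent.helper34.AC
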